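import Mathlib

/-!
# MP_d0ec72_al, Q1: the positive part of the Witt algebra

Over every field `k` of characteristic `0` the Lie algebra of the derivations `f d/dx` of `k[x]`
with `x^2 ∣ f` (basis `e_i = x^(i+1) d/dx`, `i ≥ 1`, with `[e_i, e_j] = (j - i) e_{i+j}`) is
infinite-dimensional, satisfies the maximal condition on subalgebras, and is residually nilpotent.

Proof of the maximal condition. For a nonzero element let its degree be the largest `i` such that
`e_i` occurs in it. The bracket of two elements of distinct degrees `i, j` has degree `i + j`. So the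
set of degrees of a subalgebra `H` is closed under sums of distinct elements; if `a` is its least
element then it is generated, in this sense, by `a` and by the least elements `> a` in the residue
classes modulo `a`. Elements of `H` with these degrees generate `H`.
-/

set_option autoImplicit false

open Polynomial

namespace Pool.Agent.Results.MP_d0ec72_al.PositiveWitt

theorem apply_eq {k : Type*} [Field k] (F : Derivation k k[X] k[X]) (g : k[X]) :
    F g = derivative g * F X := by
  have h2 : F = mkDerivation k (F X) := by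
    ext
    simp
  conv_lhs => rw [h2]
  rw [mkDerivation_apply]
  rfl

/-- The Lie algebra of all derivations `f d/dx` of `k[x]` such that `x^2` divides `f`. -/
noncomputable def posWitt (k : Type*) [Field k] : LieSubalgebra k (Derivation k k[X] k[X]) where
  carrier := {D | X ^ 2 ∣ D X}
  add_mem' := by
    intro D E hD hE
    exact dvd_add hD hE
  zero_mem' := by simp
  smul_mem' := by
    intro c D hD
    have h : (c • D) X = C c * D X := by
      rw [Derivation.smul_apply, smul_eq_C_mul]
    show X ^ 2 ∣ (c • D) X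
    rw [h]
    exact Dvd.dvd.mul_left hD _
  lie_mem' := by
    intro D E hD hE
    show X ^ 2 ∣ ⁅D, E⁆ X
    rw [Derivation.commutator_apply, apply_eq D, apply_eq E (D X)]
    exact dvd_sub (Dvd.dvd.mul_left hD _) (Dvd.dvd.mul_left hE _)

variable {k : Type*} [Field k]

/-- the polynomial `f` such that the element is `f d/dx` -/
noncomputable def pol (D : posWitt k) : k[X] := (D : Derivation k k[X] k[X]) X

theorem pol_dvd (D : posWitt k) : X ^ 2 ∣ pol D := D.2

theorem pol_add (D E : posWitt k) : pol (D + E) = pol D + pol E := rfl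

theorem pol_sub (D E : posWitt k) : pol (D - E) = pol D - pol E := rfl

theorem pol_smul (c : k) (D : posWitt k) : pol (c • D) = C c * pol D := by
  show (c • (D : Derivation k k[X] k[X])) X = _
  rw [Derivation.smul_apply, smul_eq_C_mul]
  rfl

theorem pol_lie (D E : posWitt k) :
    pol ⁅D, E⁆ = derivative (pol E) * pol D - derivative (pol D) * pol E := by
  show ⁅(D : Derivation k k[X] k[X]), (E : Derivation k k[X] k[X])⁆ X = _
  rw [Derivation.commutator_apply, apply_eq (D : Derivation k k[X] k[X]),
    apply_eq (E : Derivation k k[X] k[X]) ((D : Derivation k k[X] k[X]) X)]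
  rfl

theorem pol_inj {D E : posWitt k} (h : pol D = pol E) : D = E := by
  apply Subtype.ext
  exact Polynomial.derivation_ext h

theorem pol_zero : pol (0 : posWitt k) = 0 := rfl

theorem pol_ne_zero {D : posWitt k} (h : D ≠ 0) : pol D ≠ 0 := fun h0 => h (pol_inj h0)

theorem exists_pol (f : k[X]) (hf : X ^ 2 ∣ f) : ∃ D : posWitt k, pol D = f := by
  have h : mkDerivation k f X = f := by simp
  refine ⟨⟨mkDerivation k f, ?_⟩, h⟩
  show X ^ 2 ∣ mkDerivation k f X
  rw [h]
  exact hf

/-- the degree in the variable `x` of the coefficient -/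
noncomputable def dg (D : posWitt k) : ℕ := (pol D).natDegree

theorem two_le_dg {D : posWitt k} (h : D ≠ 0) : 2 ≤ dg D := by
  have h1 := natDegree_le_of_dvd (pol_dvd D) (pol_ne_zero h)
  rw [natDegree_X_pow] at h1
  exact h1

theorem lie_dg [CharZero k] {D E : posWitt k} (hD : D ≠ 0) (hE : E ≠ 0) (h : dg D ≠ dg E) :
    ⁅D, E⁆ ≠ 0 ∧ dg ⁅D, E⁆ + 1 = dg D + dg E := by
  obtain ⟨p, hp⟩ : ∃ p, dg D = p + 1 := ⟨dg D - 1, by have := two_le_dg hD; omega⟩
  obtain ⟨q, hq⟩ : ∃ q, dg E = q + 1 := ⟨dg E - 1, by have := two_le_dg hE; omega⟩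
  have hp' : (pol D).natDegree = p + 1 := hp
  have hq' : (pol E).natDegree = q + 1 := hq
  have hdD : (derivative (pol D)).natDegree ≤ p := by
    have := natDegree_derivative_le (pol D)
    omega
  have hdE : (derivative (pol E)).natDegree ≤ q := by
    have := natDegree_derivative_le (pol E)
    omega
  have h1 : (derivative (pol E) * pol D).coeff (q + (p + 1)) =
      (pol E).coeff (q + 1) * (q + 1) * (pol D).coeff (p + 1) := by
    rw [coeff_mul_add_eq_of_natDegree_le hdE hp'.le, coeff_derivative]
  have h2 : (derivative (pol D) * pol E).coeff (p + (q + 1)) =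
      (pol D).coeff (p + 1) * (p + 1) * (pol E).coeff (q + 1) := by
    rw [coeff_mul_add_eq_of_natDegree_le hdD hq'.le, coeff_derivative]
  have h3 : (pol ⁅D, E⁆).coeff (p + q + 1) =
      (pol D).coeff (p + 1) * (pol E).coeff (q + 1) * ((q : k) - p) := by
    rw [pol_lie, coeff_sub]
    have e1 : p + q + 1 = q + (p + 1) := by ring
    have e2 : p + q + 1 = p + (q + 1) := by ring
    rw [show (derivative (pol E) * pol D).coeff (p + q + 1) = _ from e1 ▸ h1,
      show (derivative (pol D) * pol E).coeff (p + q + 1) = _ from e2 ▸ h2]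
    ring
  have h4 : (pol D).coeff (p + 1) ≠ 0 := by
    rw [← hp']
    exact leadingCoeff_ne_zero.2 (pol_ne_zero hD)
  have h5 : (pol E).coeff (q + 1) ≠ 0 := by
    rw [← hq']
    exact leadingCoeff_ne_zero.2 (pol_ne_zero hE)
  have h6 : ((q : k) - p) ≠ 0 := by
    intro h0
    apply h
    have : (q : k) = p := sub_eq_zero.1 h0
    have : q = p := by exact_mod_cast this
    omega
  have h7 : (pol ⁅D, E⁆).coeff (p + q + 1) ≠ 0 := by
    rw [h3]
    exact mul_ne_zero (mul_ne_zero h4 h5) h6
  refine ⟨?_, ?_⟩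
  · intro h0
    rw [h0, pol_zero] at h7
    exact h7 (by simp)
  · have h8 : (pol ⁅D, E⁆).natDegree ≤ p + q + 1 := by
      rw [pol_lie]
      refine (natDegree_sub_le _ _).trans (max_le ?_ ?_)
      · refine natDegree_mul_le.trans ?_
        omega
      · refine natDegree_mul_le.trans ?_
        omega
    have h9 : (pol ⁅D, E⁆).natDegree = p + q + 1 := le_antisymm h8 (le_natDegree_of_ne_zero h7)
    show (pol ⁅D, E⁆).natDegree + 1 = _
    rw [h9, hp, hq]
    ring

/-- two nonzero elements of the same degree: a multiple of the one cancels the top of the other -/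
theorem reduce {D E : posWitt k} (hE : E ≠ 0) (h : dg D = dg E) :
    ∃ c : k, D - c • E = 0 ∨ dg (D - c • E) < dg D := by
  have hE0 := pol_ne_zero hE
  refine ⟨(pol D).leadingCoeff / (pol E).leadingCoeff, ?_⟩
  set c := (pol D).leadingCoeff / (pol E).leadingCoeff with hc
  by_cases h0 : D - c • E = 0
  · exact Or.inl h0
  right
  have h1 : pol (D - c • E) = pol D - C c * pol E := by rw [pol_sub, pol_smul]
  have h2 : (pol (D - c • E)).natDegree ≤ dg D := by
    rw [h1]
    refine (natDegree_sub_le _ _).trans (max_le le_rfl ?_)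
    refine (natDegree_C_mul_le _ _).trans ?_
    exact h.symm.le
  refine lt_of_le_of_ne h2 ?_
  intro h3
  have h3' : (pol (D - c • E)).natDegree = dg D := h3
  have h4 : (pol (D - c • E)).leadingCoeff = 0 := by
    rw [leadingCoeff, h3', h1, coeff_sub, coeff_C_mul]
    have e1 : (pol D).coeff (dg D) = (pol D).leadingCoeff := rfl
    have e2 : (pol E).coeff (dg D) = (pol E).leadingCoeff := by rw [h]; rfl
    rw [e1, e2, hc, div_mul_cancel₀ _ (leadingCoeff_ne_zero.2 hE0), sub_self]
  exact pol_ne_zero h0 (leadingCoeff_eq_zero.1 h4)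

/-- Every subalgebra is finitely generated. -/
theorem fg [CharZero k] (H : LieSubalgebra k (posWitt k)) :
    ∃ s : Set (posWitt k), s.Finite ∧ LieSubalgebra.lieSpan k (posWitt k) s = H := by
  classical
  by_cases hH : ∃ D ∈ H, D ≠ 0
  swap
  · push Not at hH
    refine ⟨∅, Set.finite_empty, ?_⟩
    apply le_antisymm
    · rw [LieSubalgebra.lieSpan_le]
      simp
    · intro D hD
      rw [hH D hD]
      exact zero_mem _
  -- the set of degrees
  let S : Set ℕ := {m | ∃ D ∈ H, D ≠ 0 ∧ dg D = m + 1}
  have hS : S.Nonempty := by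
    obtain ⟨D, hD, hD0⟩ := hH
    have := two_le_dg hD0
    exact ⟨dg D - 1, D, hD, hD0, by omega⟩
  let a := sInf S
  have haS : a ∈ S := Nat.sInf_mem hS
  obtain ⟨U, hU, hU0, hUa⟩ := haS
  have ha : 1 ≤ a := by
    have := two_le_dg hU0
    omega
  have hmin : ∀ m ∈ S, a ≤ m := fun m hm => Nat.sInf_le hm
  -- the least degrees `> a` in the residue classes
  let T : ℕ → Set ℕ := fun c => {m | m ∈ S ∧ a < m ∧ m % a = c}
  have hchoose : ∀ c : ℕ, ∃ D ∈ H, (T c).Nonempty → D ≠ 0 ∧ dg D = sInf (T c) + 1 := by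
    intro c
    by_cases hc : (T c).Nonempty
    · obtain ⟨⟨D, hD, hD0, hDm⟩, _, _⟩ := Nat.sInf_mem hc
      exact ⟨D, hD, fun _ => ⟨hD0, hDm⟩⟩
    · exact ⟨0, zero_mem _, fun h => absurd h hc⟩
  choose V hVH hV using hchoose
  let s : Set (posWitt k) := insert U (V '' (Finset.range a : Set ℕ))
  have hs : s.Finite := ((Finset.finite_toSet _).image V).insert U
  set H₀ := LieSubalgebra.lieSpan k (posWitt k) s with hH₀
  have hsH₀ : s ⊆ H₀ := LieSubalgebra.subset_lieSpan
  have hUH₀ : U ∈ H₀ := hsH₀ (Set.mem_insert _ _)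
  have hVH₀ : ∀ c < a, V c ∈ H₀ := fun c hc =>
    hsH₀ (Set.mem_insert_of_mem _ ⟨c, by simpa using hc, rfl⟩)
  have hle : H₀ ≤ H := by
    rw [hH₀, LieSubalgebra.lieSpan_le]
    intro D hD
    rcases hD with rfl | ⟨c, _, rfl⟩
    · exact hU
    · exact hVH c
  -- all degrees occur in `H₀`
  have hdeg : ∀ m ∈ S, ∃ D ∈ H₀, D ≠ 0 ∧ dg D = m + 1 := by
    intro m hm
    rcases (hmin m hm).eq_or_lt with h | h
    · exact ⟨U, hUH₀, hU0, by rw [hUa, h]⟩
    have hne : (T (m % a)).Nonempty := ⟨m, hm, h, rfl⟩
    have hmem : sInf (T (m % a)) ∈ T (m % a) := Nat.sInf_mem hne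
    obtain ⟨_, hm0a, hm0c⟩ := hmem
    have hm0le : sInf (T (m % a)) ≤ m := Nat.sInf_le ⟨hm, h, rfl⟩
    set m₀ := sInf (T (m % a)) with hm₀
    have hall : ∀ t : ℕ, ∃ D ∈ H₀, D ≠ 0 ∧ dg D = m₀ + t * a + 1 := by
      intro t
      induction t with
      | zero =>
        obtain ⟨h1, h2⟩ := hV (m % a) hne
        exact ⟨V (m % a), hVH₀ _ (Nat.mod_lt _ ha), h1, by rw [h2]; simp [hm₀]⟩
      | succ t ih =>
        obtain ⟨D, hD, hD0, hDd⟩ := ih
        have hne' : dg U ≠ dg D := by
          rw [hUa, hDd]
          have : a < m₀ + t * a := by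
            have : 0 ≤ t * a := Nat.zero_le _
            omega
          omega
        obtain ⟨h1, h2⟩ := lie_dg hU0 hD0 hne'
        refine ⟨⁅U, D⁆, H₀.lie_mem hUH₀ hD, h1, ?_⟩
        rw [hUa, hDd] at h2
        have : (t + 1) * a = t * a + a := by ring
        omega
    have hmod : m % a = m₀ % a := hm0c.symm
    obtain ⟨t, ht⟩ : ∃ t, m = m₀ + t * a := by
      have h1 : (m - m₀) % a = 0 := Nat.sub_mod_eq_zero_of_mod_eq hmod
      obtain ⟨t, ht⟩ := Nat.dvd_of_mod_eq_zero h1
      exact ⟨t, by rw [mul_comm t a, ← ht]; omega⟩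
    rw [ht]
    exact hall t
  refine ⟨s, hs, le_antisymm hle ?_⟩
  -- reduction of the degree
  have key : ∀ N : ℕ, ∀ D ∈ H, dg D ≤ N → D ∈ H₀ := by
    intro N
    induction N with
    | zero =>
      intro D _ hN
      by_cases h0 : D = 0
      · rw [h0]; exact zero_mem _
      · have := two_le_dg h0
        omega
    | succ N ih =>
      intro D hD hN
      by_cases h0 : D = 0
      · rw [h0]; exact zero_mem _
      have h2 := two_le_dg h0
      obtain ⟨E, hE, hE0, hEd⟩ := hdeg (dg D - 1) ⟨D, hD, h0, by omega⟩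
      have hED : dg D = dg E := by omega
      obtain ⟨c, hc⟩ := reduce hE0 hED
      have hmem : D - c • E ∈ H := sub_mem hD (H.smul_mem c (hle hE))
      have h3 : D - c • E ∈ H₀ := by
        rcases hc with hc | hc
        · rw [hc]; exact zero_mem _
        · exact ih _ hmem (by omega)
      have h4 : D = (D - c • E) + c • E := by abel
      rw [h4]
      exact add_mem h3 (H₀.smul_mem c hE)
  intro D hD
  exact key _ D hD le_rfl

/-- the ideal of the elements `f d/dx` with `x^n ∣ f` -/
noncomputable def ideal (n : ℕ) : LieIdeal k (posWitt k) where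
  carrier := {D | X ^ n ∣ pol D}
  add_mem' := by
    intro D E hD hE
    exact dvd_add hD hE
  zero_mem' := by
    show X ^ n ∣ pol (0 : posWitt k)
    rw [pol_zero]
    exact dvd_zero _
  smul_mem' := by
    intro c D hD
    show X ^ n ∣ pol (c • D)
    rw [pol_smul]
    exact Dvd.dvd.mul_left hD _
  lie_mem := by
    intro D E hE
    have hE' : X ^ n ∣ pol E := hE
    show X ^ n ∣ pol ⁅D, E⁆
    rw [pol_lie]
    refine dvd_sub ?_ (Dvd.dvd.mul_left hE' _)
    obtain ⟨g, hg⟩ := hE'
    obtain ⟨f, hf⟩ := pol_dvd D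
    rw [hg, hf, derivative_mul, derivative_X_pow]
    cases n with
    | zero => simp
    | succ n =>
      refine ⟨C ((n : k) + 1) * g * f * X + derivative g * X ^ 2 * f, ?_⟩
      simp only [Nat.add_sub_cancel, Nat.cast_add, Nat.cast_one]
      ring

theorem mem_ideal {n : ℕ} {D : posWitt k} : D ∈ (ideal n : LieIdeal k (posWitt k)) ↔
    X ^ n ∣ pol D := Iff.rfl

theorem lie_mem_ideal {n : ℕ} {D E : posWitt k} (hE : E ∈ (ideal n : LieIdeal k (posWitt k))) :
    ⁅D, E⁆ ∈ (ideal (n + 1) : LieIdeal k (posWitt k)) := by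
  rw [mem_ideal] at hE ⊢
  rw [pol_lie]
  obtain ⟨g, hg⟩ := hE
  obtain ⟨f, hf⟩ := pol_dvd D
  rw [hg, hf, derivative_mul, derivative_mul, derivative_X_pow, derivative_X_pow]
  cases n with
  | zero =>
    refine ⟨derivative g * X * f - (C 2 * f + X * derivative f) * g, ?_⟩
    simp only [Nat.cast_zero, map_zero, zero_mul, pow_zero, one_mul, zero_add]
    norm_num
    ring
  | succ n =>
    refine ⟨C ((n : k) + 1) * g * f + derivative g * X * f - (C 2 * f + X * derivative f) * g, ?_⟩
    simp only [Nat.add_sub_cancel, Nat.cast_add, Nat.cast_one, Nat.cast_ofNat]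
    norm_num
    ring

theorem lcs_le (n : ℕ) :
    (LieModule.lowerCentralSeries k (posWitt k) (posWitt k) n : LieIdeal k (posWitt k)) ≤
      ideal n := by
  induction n with
  | zero =>
    intro D _
    rw [mem_ideal]
    simp
  | succ n ih =>
    rw [LieModule.lowerCentralSeries_succ, LieSubmodule.lieIdeal_oper_eq_span,
      LieSubmodule.lieSpan_le]
    rintro _ ⟨D, E, rfl⟩
    exact lie_mem_ideal (ih E.2)

/-- the quotients modulo these ideals are nilpotent -/
theorem nilpotent_quotient (n : ℕ) :
    LieRing.IsNilpotent (posWitt k ⧸ (ideal n : LieIdeal k (posWitt k))) := by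
  have h1 : LieModule.IsNilpotent (posWitt k)
      (posWitt k ⧸ (ideal n : LieIdeal k (posWitt k))) :=
    (LieModule.isNilpotent_quotient_iff k _ _ _).2 ⟨n, lcs_le n⟩
  obtain ⟨m, hm⟩ := (LieModule.isNilpotent_iff k _ _).1 h1
  rw [LieRing.IsNilpotent, LieModule.isNilpotent_iff k]
  refine ⟨m, ?_⟩
  rw [← LieSubmodule.toSubmodule_inj, ← coe_lowerCentralSeries_ideal_quot_eq, hm]
  rfl

/-- the linear map `f d/dx ↦ f` -/
noncomputable def polL : posWitt k →ₗ[k] k[X] where
  toFun := pol
  map_add' := pol_add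
  map_smul' c D := by
    rw [pol_smul, RingHom.id_apply, smul_eq_C_mul]

theorem not_finite : ¬ FiniteDimensional k (posWitt k) := by
  intro hfin
  have h1 : ∀ n : ℕ, ∃ D : posWitt k, pol D = X ^ (n + 2) := fun n =>
    exists_pol _ (pow_dvd_pow _ (by omega))
  choose v hv using h1
  have h2 : LinearIndependent k v := by
    apply LinearIndependent.of_comp (polL (k := k))
    have h3 : (polL (k := k)) ∘ v = fun n : ℕ => (basisMonomials k) (n + 2) := by
      funext n
      rw [Function.comp_apply, coe_basisMonomials]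
      show pol (v n) = _
      rw [hv n, X_pow_eq_monomial]
    rw [h3]
    exact (basisMonomials k).linearIndependent.comp (fun n : ℕ => n + 2)
      (fun a b h => by simpa using h)
  have h4 : Finite ℕ := h2.finite
  exact _root_.not_finite ℕ

/-- Let `k` be a field of characteristic `0`. The Lie algebra of the derivations `f d/dx` of `k[x]`
with `x^2 ∣ f` is infinite-dimensional, satisfies the maximal condition on subalgebras
(equivalently, all its subalgebras are finitely generated), and is residually nilpotent. -/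
theorem result (k : Type*) [Field k] [CharZero k] :
    ¬ FiniteDimensional k (posWitt k) ∧
      WellFoundedGT (LieSubalgebra k (posWitt k)) ∧
      (∀ H : LieSubalgebra k (posWitt k), ∃ s : Set (posWitt k), s.Finite ∧
        LieSubalgebra.lieSpan k (posWitt k) s = H) ∧
      ∀ x : posWitt k, x ≠ 0 → ∃ I : LieIdeal k (posWitt k),
        x ∉ I ∧ LieRing.IsNilpotent (posWitt k ⧸ I) := by
  refine ⟨not_finite, ?_, fg, ?_⟩
  · rw [wellFoundedGT_iff_monotone_chain_condition]
    intro a
    let K : LieSubalgebra k (posWitt k) :=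
      { carrier := {x | ∃ n, x ∈ a n}
        add_mem' := by
          rintro x y ⟨m, hm⟩ ⟨n, hn⟩
          exact ⟨max m n, add_mem (a.mono (le_max_left m n) hm) (a.mono (le_max_right m n) hn)⟩
        zero_mem' := ⟨0, zero_mem _⟩
        smul_mem' := by
          rintro c x ⟨n, hn⟩
          exact ⟨n, (a n).smul_mem c hn⟩
        lie_mem' := by
          rintro x y ⟨m, hm⟩ ⟨n, hn⟩
          exact ⟨max m n, (a _).lie_mem (a.mono (le_max_left m n) hm)
            (a.mono (le_max_right m n) hn)⟩ }
    have hK : ∀ n, a n ≤ K := fun n x hx => ⟨n, hx⟩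
    obtain ⟨s, hs, hsK⟩ := fg K
    have h1 : ∃ n, s ⊆ a n := by
      have h2 : ∀ x ∈ s, ∃ n, x ∈ a n := by
        intro x hx
        have : x ∈ K := by
          rw [← hsK]
          exact LieSubalgebra.subset_lieSpan hx
        exact this
      choose! f hf using h2
      obtain ⟨N, hN⟩ := (hs.image f).bddAbove
      exact ⟨N, fun x hx => a.mono (hN ⟨x, hx, rfl⟩) (hf x hx)⟩
    obtain ⟨n, hn⟩ := h1
    refine ⟨n, fun m hm => le_antisymm (a.mono hm) ((hK m).trans ?_)⟩
    rw [← hsK, LieSubalgebra.lieSpan_le]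
    exact hn
  · intro x hx
    refine ⟨ideal ((pol x).natDegree + 1), ?_, nilpotent_quotient _⟩
    rw [mem_ideal]
    intro h
    have h1 := natDegree_le_of_dvd h (pol_ne_zero hx)
    rw [natDegree_X_pow] at h1
    omega

end Pool.Agent.Results.MP_d0ec72_al.PositiveWitt
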